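import Mathlib

/-!
# Alternating cyclic orderings for points in convex position

If the points can be numbered so that for `i < j < k < l` the segments `p_i p_k` and `p_j p_l`
meet (for instance the vertices of a convex polygon in their cyclic order), the Hall-type condition
implies that there is an alternating cyclic ordering, and the points can be taken in this order.
-/

set_option autoImplicit false

namespace Pool.Agent.Results.MP_3b4e7c_co.ConvexPosition

open Finset

/-- A halfplane, open or closed. -/
def IsHalfplane (S : Set (ℝ × ℝ)) : Prop :=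
  ∃ a b c : ℝ, (a ≠ 0 ∨ b ≠ 0) ∧
    (S = {x | a * x.1 + b * x.2 ≤ c} ∨ S = {x | a * x.1 + b * x.2 < c})

open Classical in
/-- The Hall-type condition. -/
def HallType {n : ℕ} (p : Fin n → ℝ × ℝ) (H : Fin n → Set (ℝ × ℝ)) : Prop :=
  ∀ X : Finset (Fin n), 2 ≤ X.card →
    X.card ≤ (univ.filter fun h => 2 ≤ (X.filter fun i => p i ∈ H h).card).card

/-- There is an alternating cyclic ordering `p (σ 0), H (τ 0), p (σ 1), H (τ 1), …`
(`finRotate n i` is `i + 1` modulo `n`). -/
def HasAlternatingOrdering {n : ℕ} (p : Fin n → ℝ × ℝ) (H : Fin n → Set (ℝ × ℝ)) : Prop :=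
  ∃ σ τ : Equiv.Perm (Fin n), ∀ i : Fin n, p (σ i) ∈ H (τ i) ∧ p (σ (finRotate n i)) ∈ H (τ i)

/-- Crossing position: for `i < j < k < l` the segments `p_i p_k` and `p_j p_l` meet. -/
def Crossing {n : ℕ} (p : Fin n → ℝ × ℝ) : Prop :=
  ∀ i j k l : Fin n, i < j → j < k → k < l →
    (segment ℝ (p i) (p k) ∩ segment ℝ (p j) (p l)).Nonempty

/-- Twice the signed area of a triangle. -/
def area2 (a b c : ℝ × ℝ) : ℝ := (b.1 - a.1) * (c.2 - a.2) - (b.2 - a.2) * (c.1 - a.1)

/-- The points are, in this order, the vertices of a strictly convex polygon (counterclockwise). -/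
def ConvexOrder {n : ℕ} (p : Fin n → ℝ × ℝ) : Prop :=
  ∀ i j k : Fin n, i < j → j < k → 0 < area2 (p i) (p j) (p k)

theorem crossing_of_convex {n : ℕ} {p : Fin n → ℝ × ℝ} (hp : ConvexOrder p) : Crossing p := by
  intro i j k l hij hjk hkl
  have h1 := hp i j k hij hjk
  have h2 := hp i j l hij (hjk.trans hkl)
  have h3 := hp i k l (hij.trans hjk) hkl
  have h4 := hp j k l hjk hkl
  set A := area2 (p j) (p k) (p l) with hA
  set C := area2 (p i) (p j) (p l) with hC
  set B := area2 (p i) (p k) (p l) with hB
  set D := area2 (p i) (p j) (p k) with hD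
  have hs : A + C = B + D := by
    rw [hA, hB, hC, hD]
    unfold area2
    ring
  have hAC : 0 < A + C := by linarith
  refine ⟨(A / (A + C)) • p i + (C / (A + C)) • p k,
    ⟨A / (A + C), C / (A + C), by positivity, by positivity, by field_simp, rfl⟩,
    ⟨B / (A + C), D / (A + C), by positivity, by positivity, ?_, ?_⟩⟩
  · rw [← add_div, ← hs, div_self hAC.ne']
  · have e1 : B * (p j).1 + D * (p l).1 = A * (p i).1 + C * (p k).1 := by
      rw [hA, hB, hC, hD]
      unfold area2
      ring
    have e2 : B * (p j).2 + D * (p l).2 = A * (p i).2 + C * (p k).2 := by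
      rw [hA, hB, hC, hD]
      unfold area2
      ring
    ext
    · simp only [Prod.fst_add, Prod.smul_fst, smul_eq_mul]
      field_simp
      linarith
    · simp only [Prod.snd_add, Prod.smul_snd, smul_eq_mul]
      field_simp
      linarith

theorem half_mem {S : Set (ℝ × ℝ)} (hS : IsHalfplane S) {x y z : ℝ × ℝ}
    (hz : z ∈ segment ℝ x y) : (x ∈ S → y ∈ S → z ∈ S) ∧ (x ∉ S → y ∉ S → z ∉ S) := by
  obtain ⟨a, b, c, -, hS⟩ := hS
  obtain ⟨s, t, hs, ht, hst, rfl⟩ := hz
  have e : a * (s • x + t • y).1 + b * (s • x + t • y).2 =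
      s * (a * x.1 + b * x.2) + t * (a * y.1 + b * y.2) := by
    simp only [Prod.fst_add, Prod.smul_fst, Prod.snd_add, Prod.smul_snd, smul_eq_mul]
    ring
  have hc : c = s * c + t * c := by rw [← add_mul, hst, one_mul]
  rcases hS with rfl | rfl
  · constructor
    · intro hx hy
      show a * (s • x + t • y).1 + b * (s • x + t • y).2 ≤ c
      have hx' : a * x.1 + b * x.2 ≤ c := hx
      have hy' : a * y.1 + b * y.2 ≤ c := hy
      rw [e, hc]
      gcongr
    · intro hx hy hz
      have hx' : c < a * x.1 + b * x.2 := not_le.mp hx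
      have hy' : c < a * y.1 + b * y.2 := not_le.mp hy
      have hz' : a * (s • x + t • y).1 + b * (s • x + t • y).2 ≤ c := hz
      rw [e] at hz'
      rcases eq_or_lt_of_le hs with h0 | h0
      · have ht1 : t = 1 := by linarith
        rw [← h0, ht1] at hz'
        linarith
      · have h1 : s * c < s * (a * x.1 + b * x.2) := by gcongr
        have h2 : t * c ≤ t * (a * y.1 + b * y.2) := by gcongr
        linarith
  · constructor
    · intro hx hy
      show a * (s • x + t • y).1 + b * (s • x + t • y).2 < c
      have hx' : a * x.1 + b * x.2 < c := hx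
      have hy' : a * y.1 + b * y.2 < c := hy
      rw [e]
      rcases eq_or_lt_of_le hs with h0 | h0
      · have ht1 : t = 1 := by linarith
        rw [← h0, ht1]
        linarith
      · have h1 : s * (a * x.1 + b * x.2) < s * c := by gcongr
        have h2 : t * (a * y.1 + b * y.2) ≤ t * c := by gcongr
        linarith
    · intro hx hy hz
      have hx' : c ≤ a * x.1 + b * x.2 := not_lt.mp hx
      have hy' : c ≤ a * y.1 + b * y.2 := not_lt.mp hy
      have hz' : a * (s • x + t • y).1 + b * (s • x + t • y).2 < c := hz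
      rw [e] at hz'
      have h1 : s * c ≤ s * (a * x.1 + b * x.2) := by gcongr
      have h2 : t * c ≤ t * (a * y.1 + b * y.2) := by gcongr
      linarith

theorem arc {m : ℕ} {p : Fin (m + 1) → ℝ × ℝ} (hp : Crossing p) {S : Set (ℝ × ℝ)}
    (hS : IsHalfplane S) {i j : Fin (m + 1)} (hij : i < j) (hi : p i ∈ S) (hj : p j ∈ S) :
    p (finRotate (m + 1) i) ∈ S ∨ p (finRotate (m + 1) j) ∈ S := by
  by_contra hcon
  rw [not_or] at hcon
  obtain ⟨h1, h2⟩ := hcon
  have hiv : i.val < m := by
    have := j.isLt
    have : i.val < j.val := hij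
    omega
  have ei : finRotate (m + 1) i = ⟨i.val + 1, by omega⟩ := by
    have := finRotate_of_lt (k := i.val) (n := m) hiv
    exact this
  rw [ei] at h1
  have hne : i.val + 1 ≠ j.val := by
    intro h
    apply h1
    have : (⟨i.val + 1, by omega⟩ : Fin (m + 1)) = j := Fin.ext h
    rw [this]
    exact hj
  have hlt : i.val + 1 < j.val := by
    have : i.val < j.val := hij
    omega
  rcases Nat.lt_or_ge j.val m with hjm | hjm
  · have ej : finRotate (m + 1) j = ⟨j.val + 1, by omega⟩ := finRotate_of_lt (k := j.val) (n := m) hjm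
    rw [ej] at h2
    obtain ⟨z, hz1, hz2⟩ := hp i ⟨i.val + 1, by omega⟩ j ⟨j.val + 1, by omega⟩
      (by show i.val < i.val + 1; omega) hlt (by show j.val < j.val + 1; omega)
    exact (half_mem hS hz2).2 h1 h2 ((half_mem hS hz1).1 hi hj)
  · have hjl : j = Fin.last m := by
      apply Fin.ext
      have := j.isLt
      simp only [Fin.val_last]
      omega
    rw [hjl, finRotate_last] at h2
    have hi0 : 0 < i.val := by
      rcases Nat.eq_zero_or_pos i.val with h | h
      · exfalso
        apply h2
        have : (0 : Fin (m + 1)) = i := Fin.ext (by simp [h])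
        rw [this]
        exact hi
      · exact h
    obtain ⟨z, hz1, hz2⟩ := hp 0 i ⟨i.val + 1, by omega⟩ j
      (by show (0 : Fin (m + 1)).val < i.val; simpa using hi0)
      (by show i.val < i.val + 1; omega) hlt
    exact (half_mem hS hz1).2 h2 h1 ((half_mem hS hz2).1 hi hj)

/-- Points in crossing position (in particular: in convex position): the Hall-type condition
implies an alternating cyclic ordering. -/
theorem result (n : ℕ) (hn : 2 ≤ n) (p : Fin n → ℝ × ℝ) (H : Fin n → Set (ℝ × ℝ))
    (hH : ∀ h, IsHalfplane (H h)) (hp : Crossing p ∨ ConvexOrder p) (hHall : HallType p H) :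
    HasAlternatingOrdering p H := by
  classical
  have hc : Crossing p := hp.elim id crossing_of_convex
  obtain ⟨m, rfl⟩ : ∃ m, n = m + 1 := ⟨n - 1, by omega⟩
  set t : Fin (m + 1) → Finset (Fin (m + 1)) := fun i =>
    univ.filter fun h => p i ∈ H h ∧ p (finRotate (m + 1) i) ∈ H h with ht
  have hrot : ∀ i : Fin (m + 1), finRotate (m + 1) i ≠ i := by
    intro i h
    rcases Nat.lt_or_ge i.val m with hi | hi
    · have e : finRotate (m + 1) i = ⟨i.val + 1, by omega⟩ := finRotate_of_lt (k := i.val) hi
      rw [e] at h
      have := congrArg Fin.val h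
      simp at this
    · have hl : i = Fin.last m := by
        apply Fin.ext
        have := i.isLt
        simp only [Fin.val_last]
        omega
      rw [hl, finRotate_last] at h
      have := congrArg Fin.val h
      simp at this
      omega
  have hall : ∀ s : Finset (Fin (m + 1)), s.card ≤ (s.biUnion t).card := by
    intro s
    rcases Nat.lt_or_ge s.card 2 with hs | hs
    · rcases Nat.eq_zero_or_pos s.card with h0 | h0
      · rw [h0]; exact Nat.zero_le _
      · obtain ⟨i, hi⟩ := Finset.card_eq_one.mp (show s.card = 1 by omega)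
        subst hi
        have h2 : ({i, finRotate (m + 1) i} : Finset (Fin (m + 1))).card = 2 :=
          Finset.card_pair (hrot i).symm
        have h3 := hHall {i, finRotate (m + 1) i} h2.ge
        rw [h2] at h3
        have hne : (univ.filter fun h => 2 ≤ (({i, finRotate (m + 1) i} :
            Finset (Fin (m + 1))).filter fun i => p i ∈ H h).card).Nonempty :=
          Finset.card_pos.mp (by omega)
        obtain ⟨h, hh⟩ := hne
        rw [Finset.mem_filter] at hh
        have hfull : (({i, finRotate (m + 1) i} :
            Finset (Fin (m + 1))).filter fun i => p i ∈ H h) = {i, finRotate (m + 1) i} := by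
          apply Finset.eq_of_subset_of_card_le (Finset.filter_subset _ _)
          rw [h2]
          exact hh.2
        have m1 : i ∈ (({i, finRotate (m + 1) i} :
            Finset (Fin (m + 1))).filter fun i => p i ∈ H h) := by rw [hfull]; simp
        have m2 : finRotate (m + 1) i ∈ (({i, finRotate (m + 1) i} :
            Finset (Fin (m + 1))).filter fun i => p i ∈ H h) := by rw [hfull]; simp
        rw [Finset.card_singleton, Finset.singleton_biUnion]
        apply Finset.card_pos.mpr
        exact ⟨h, by
          rw [ht]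
          exact Finset.mem_filter.mpr ⟨Finset.mem_univ _, (Finset.mem_filter.mp m1).2,
            (Finset.mem_filter.mp m2).2⟩⟩
    · refine (hHall s hs).trans (Finset.card_le_card ?_)
      intro h hh
      rw [Finset.mem_filter] at hh
      obtain ⟨a, ha, b, hb, hab⟩ := Finset.one_lt_card.mp (show 1 < _ from hh.2)
      rw [Finset.mem_filter] at ha hb
      rw [Finset.mem_biUnion]
      rcases lt_or_gt_of_ne hab with hlt | hlt
      · rcases arc hc (hH h) hlt ha.2 hb.2 with h1 | h1
        · exact ⟨a, ha.1, by rw [ht]; exact Finset.mem_filter.mpr ⟨Finset.mem_univ _, ha.2, h1⟩⟩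
        · exact ⟨b, hb.1, by rw [ht]; exact Finset.mem_filter.mpr ⟨Finset.mem_univ _, hb.2, h1⟩⟩
      · rcases arc hc (hH h) hlt hb.2 ha.2 with h1 | h1
        · exact ⟨b, hb.1, by rw [ht]; exact Finset.mem_filter.mpr ⟨Finset.mem_univ _, hb.2, h1⟩⟩
        · exact ⟨a, ha.1, by rw [ht]; exact Finset.mem_filter.mpr ⟨Finset.mem_univ _, ha.2, h1⟩⟩
  obtain ⟨f, hf, hft⟩ := (Finset.all_card_le_biUnion_card_iff_exists_injective t).mp hall
  refine ⟨Equiv.refl _, Equiv.ofBijective f (Finite.injective_iff_bijective.mp hf), fun i => ?_⟩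
  have h := hft i
  rw [ht] at h
  exact (Finset.mem_filter.mp h).2

end Pool.Agent.Results.MP_3b4e7c_co.ConvexPosition
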